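import Pool.Agent.CPT.StmtsB
import Pool.Agent.Helper76_ALT.Np

set_option autoImplicit false

/-!
# Squad CPT, row PUX: Puiseux embeddings and integrality at a point

The minimal polynomial of `w` over `κ(X)` splits over the Laurent series in `T = (X - c) ^ (1 / M)`;
each of its roots is the image of `w` under an embedding of `K`.
-/

namespace Pool.Agent.CPT.H88

open Polynomial Pool.Agent.Helper74_ALT Pool.Agent.Helper74_ALT.H76

theorem powX_C {Λ : Type} [Field Λ] (M : ℕ) (hM : 0 < M) (a : Λ) :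
    powX M hM (HahnSeries.C a) = HahnSeries.C a :=
  HahnSeries.embDomainRingHom_C

theorem powX_single {Λ : Type} [Field Λ] (M : ℕ) (hM : 0 < M) (n : ℤ) (a : Λ) :
    powX M hM (HahnSeries.single n a) = HahnSeries.single ((M : ℤ) * n) a :=
  HahnSeries.embDomain_single

theorem coeff_neg_of_order {Λ : Type} [Field Λ] (z : LaurentSeries Λ) (h : 0 ≤ z.order) :
    ∀ n : ℤ, n < 0 → z.coeff n = 0 := fun _ hn =>
  HahnSeries.coeff_eq_zero_of_lt_order (hn.trans_le h)

theorem order_of_coeff_neg {Λ : Type} [Field Λ] (z : LaurentSeries Λ)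
    (h : ∀ n : ℤ, n < 0 → z.coeff n = 0) : 0 ≤ z.order := by
  by_contra hcon
  rw [not_le] at hcon
  have h1 := h _ hcon
  have h2 : z ≠ 0 := by
    rintro rfl
    simp at hcon
  exact h2 (HahnSeries.coeff_order_eq_zero.mp h1)

/-- an extension of the expansion at `c` is a Puiseux embedding. -/
theorem isPx_of {κ K Λ : Type} [Field κ] [Field K] [Field Λ] [Algebra κ Λ] [Algebra κ[X] K]
    [Algebra (FractionRing κ[X]) K] [IsScalarTower κ[X] (FractionRing κ[X]) K] (c : κ)
    (j : FractionRing κ[X] →+* LaurentSeries Λ)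
    (hjC : ∀ a : κ, j (algebraMap κ[X] (FractionRing κ[X]) (C a)) =
      HahnSeries.C (algebraMap κ Λ a))
    (hjX : j (algebraMap κ[X] (FractionRing κ[X]) X) =
      HahnSeries.C (algebraMap κ Λ c) + HahnSeries.single 1 1)
    (M : ℕ) (hM : 0 < M) (J : K →+* LaurentSeries Λ)
    (hJ : ∀ z, J (algebraMap (FractionRing κ[X]) K z) = powX M hM (j z)) : IsPx c M J := by
  refine ⟨hM, ?_, ?_⟩
  · intro a
    rw [IsScalarTower.algebraMap_apply κ[X] (FractionRing κ[X]) K, hJ, hjC, powX_C]
  · rw [IsScalarTower.algebraMap_apply κ[X] (FractionRing κ[X]) K, hJ, hjX, map_add, powX_C,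
      powX_single, mul_one]

/-- integrality after multiplication with a denominator. -/
theorem integral_of_coeffs {κ K : Type} [Field κ] [Field K] [Algebra κ[X] K]
    [Algebra (FractionRing κ[X]) K] [IsScalarTower κ[X] (FractionRing κ[X]) K] (c : κ) (w : K)
    (P : (FractionRing κ[X])[X]) (hP : P.Monic) (hw : aeval w P = 0)
    (h : ∀ i, ∃ f p : κ[X], f.eval c ≠ 0 ∧
      algebraMap κ[X] (FractionRing κ[X]) f * P.coeff i = algebraMap κ[X] (FractionRing κ[X]) p) :
    ∃ f : κ[X], f.eval c ≠ 0 ∧ IsIntegral κ[X] (algebraMap κ[X] K f * w) := by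
  classical
  choose f p hf hp using h
  set g : κ[X] := ∏ i ∈ Finset.range P.natDegree, f i with hg
  have hgc : g.eval c ≠ 0 := by
    rw [hg, eval_prod]
    exact Finset.prod_ne_zero_iff.mpr fun i _ => hf i
  have hgi : ∀ i, i < P.natDegree → ∃ q : κ[X],
      algebraMap κ[X] (FractionRing κ[X]) g * P.coeff i = algebraMap κ[X] (FractionRing κ[X]) q := by
    intro i hi
    have h1 : g = f i * ∏ k ∈ (Finset.range P.natDegree).erase i, f k :=
      (Finset.mul_prod_erase _ _ (Finset.mem_range.mpr hi)).symm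
    refine ⟨p i * ∏ k ∈ (Finset.range P.natDegree).erase i, f k, ?_⟩
    rw [h1, map_mul, map_mul, ← hp i]
    ring
  refine ⟨g, hgc, ?_⟩
  set s := algebraMap κ[X] (FractionRing κ[X]) g with hs
  have hlift : scaleRoots P s ∈ lifts (algebraMap κ[X] (FractionRing κ[X])) := by
    rw [lifts_iff_coeff_lifts]
    intro i
    rw [coeff_scaleRoots]
    rcases lt_trichotomy i P.natDegree with hi | hi | hi
    · obtain ⟨q, hq⟩ := hgi i hi
      refine ⟨q * g ^ (P.natDegree - i - 1), ?_⟩
      rw [map_mul, map_pow, ← hq, ← hs]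
      have h2 : P.natDegree - i = (P.natDegree - i - 1) + 1 := by omega
      conv_rhs => rw [h2, pow_succ]
      ring
    · refine ⟨1, ?_⟩
      rw [hi, hP.coeff_natDegree, Nat.sub_self, pow_zero, map_one, mul_one]
    · refine ⟨0, ?_⟩
      rw [coeff_eq_zero_of_natDegree_lt hi, zero_mul, map_zero]
  obtain ⟨G, hG, -, hGm⟩ := lifts_and_natDegree_eq_and_monic hlift
    ((monic_scaleRoots_iff s).mpr hP)
  refine ⟨G, hGm, ?_⟩
  have h3 := scaleRoots_aeval_eq_zero (r := s) hw
  rw [← hG, aeval_map_algebraMap, hs, ← IsScalarTower.algebraMap_apply κ[X] (FractionRing κ[X]) K]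
    at h3
  exact h3

theorem pux (hPJZ : PjzStmt) : PuxStmt := by
  intro κ K Λ _ _ _ _ _ _ _ _ _ _ c
  obtain ⟨j, hjC, hjX, hj⟩ := hPJZ κ Λ c
  have hΛ : CharZero Λ := charZero_of_injective_algebraMap (algebraMap κ Λ).injective
  constructor
  · obtain ⟨M, hM, J, hJ⟩ := np Λ (FractionRing κ[X]) K j
    exact ⟨M, J, isPx_of c j hjC hjX M hM J hJ⟩
  intro w hw
  -- the normal closure
  let N := IntermediateField.normalClosure (FractionRing κ[X]) K (AlgebraicClosure K)
  obtain ⟨M, hM, jN, hjN⟩ := np Λ (FractionRing κ[X]) N j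
  let _ : Algebra (FractionRing κ[X]) (LaurentSeries Λ) := ((powX M hM).comp j).toAlgebra
  have halg : ∀ z, algebraMap (FractionRing κ[X]) (LaurentSeries Λ) z = powX M hM (j z) :=
    fun _ => rfl
  have hsplit : ∀ s : K, IsIntegral (FractionRing κ[X]) s ∧
      ((minpoly (FractionRing κ[X]) s).map
        (algebraMap (FractionRing κ[X]) (LaurentSeries Λ))).Splits := by
    intro s
    refine ⟨IsIntegral.of_finite _ s, ?_⟩
    have h1 : ((minpoly (FractionRing κ[X]) s).map (algebraMap (FractionRing κ[X]) N)).Splits := by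
      have h2 := Normal.splits (F := FractionRing κ[X]) (K := N) inferInstance (algebraMap K N s)
      rwa [minpoly.algebraMap_eq (algebraMap K N).injective] at h2
    have h3 := h1.map jN
    rw [Polynomial.map_map] at h3
    have h4 : jN.comp (algebraMap (FractionRing κ[X]) N)
        = algebraMap (FractionRing κ[X]) (LaurentSeries Λ) := by
      ext1 z
      rw [RingHom.comp_apply, hjN z, halg]
    rwa [h4] at h3
  have hroot : ∀ z : LaurentSeries Λ, aeval z (minpoly (FractionRing κ[X]) w) = 0 →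
      0 ≤ z.order := by
    intro z hz
    obtain ⟨φ, hφ⟩ := IntermediateField.exists_algHom_of_splits_of_aeval hsplit hz
    have h1 := hw M φ.toRingHom (isPx_of c j hjC hjX M hM φ.toRingHom fun z => φ.commutes z)
    have h2 : φ.toRingHom w = z := hφ
    rwa [h2] at h1
  apply integral_of_coeffs c w (minpoly (FractionRing κ[X]) w)
    (minpoly.monic (hsplit w).1) (minpoly.aeval _ w)
  intro i
  apply hj
  -- the coefficients have order at least 0
  have hmon : ((minpoly (FractionRing κ[X]) w).map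
      (algebraMap (FractionRing κ[X]) (LaurentSeries Λ))).Monic :=
    (minpoly.monic (hsplit w).1).map _
  have hprod := (hsplit w).2.eq_prod_roots_of_monic hmon
  have hlift : (minpoly (FractionRing κ[X]) w).map
      (algebraMap (FractionRing κ[X]) (LaurentSeries Λ)) ∈ lifts (HahnSeries.ofPowerSeries ℤ Λ) := by
    rw [hprod]
    apply multiset_prod_mem
    intro q hq
    obtain ⟨z, hz, rfl⟩ := Multiset.mem_map.mp hq
    have hz2 : aeval z (minpoly (FractionRing κ[X]) w) = 0 := by
      have h1 := (mem_roots hmon.ne_zero).mp hz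
      rw [IsRoot, eval_map_algebraMap] at h1
      exact h1
    obtain ⟨g, hg⟩ := mem_range_ofPS z (coeff_neg_of_order z (hroot z hz2))
    rw [mem_lifts]
    refine ⟨X - C g, ?_⟩
    rw [Polynomial.map_sub, map_X, map_C, hg]
  obtain ⟨g, hg⟩ := (lifts_iff_coeff_lifts _).mp hlift i
  rw [coeff_map, halg] at hg
  apply order_of_coeff_neg
  intro n hn
  rw [← coeff_powX_mul M hM, ← hg, coeff_ofPS_neg]
  have hM' : (0 : ℤ) < M := by exact_mod_cast hM
  exact mul_neg_of_pos_of_neg hM' hn

end Pool.Agent.CPT.H88
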